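import Mathlib

/-! The Hartley matrix `cas(2π a b / N)` and its orthogonality. -/

namespace Pool.Agent.Helper38.SX

open Complex Finset

/-- `cas θ = cos θ + sin θ`. -/
noncomputable def cas (t : ℝ) : ℝ := Real.cos t + Real.sin t

lemma abs_cas_le (t : ℝ) : |cas t| ≤ Real.sqrt 2 := by
  apply Real.abs_le_sqrt
  have h := Real.sin_sq_add_cos_sq t
  unfold cas
  nlinarith [sq_nonneg (Real.cos t - Real.sin t)]

lemma cas_mul_cas (a b : ℝ) : cas a * cas b = Real.cos (a - b) + Real.sin (a + b) := by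
  unfold cas
  rw [Real.cos_sub, Real.sin_add]; ring

/-- Geometric sum over `N`-th roots of unity. -/
lemma sum_exp (N : ℕ) (hN : 0 < N) (m : ℤ) :
    ∑ b ∈ range N, exp (((2 * Real.pi * m / N : ℝ) * b : ℝ) * I) =
      if (N : ℤ) ∣ m then (N : ℂ) else 0 := by
  set z : ℂ := exp (((2 * Real.pi * m / N : ℝ)) * I) with hz
  have hpow : ∀ b : ℕ, exp (((2 * Real.pi * m / N : ℝ) * b : ℝ) * I) = z ^ b := by
    intro b
    rw [hz, ← Complex.exp_nat_mul]
    congr 1
    push_cast
    ring
  simp_rw [hpow]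
  have hN0 : (N : ℝ) ≠ 0 := by positivity
  have hN0' : (N : ℂ) ≠ 0 := by exact_mod_cast hN.ne'
  by_cases h : (N : ℤ) ∣ m
  · rw [if_pos h]
    obtain ⟨k, hk⟩ := h
    have hz1 : z = 1 := by
      rw [hz, Complex.exp_eq_one_iff]
      refine ⟨k, ?_⟩
      rw [hk]
      push_cast
      field_simp
    rw [hz1]; simp
  · rw [if_neg h]
    have hz1 : z ≠ 1 := by
      intro h1
      rw [hz, Complex.exp_eq_one_iff] at h1
      obtain ⟨k, hk⟩ := h1
      apply h
      refine ⟨k, ?_⟩
      have h2 : (((2 * Real.pi * m / N : ℝ)) : ℂ) = ((2 * Real.pi * k : ℝ) : ℂ) := by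
        have hI : (I : ℂ) ≠ 0 := Complex.I_ne_zero
        apply mul_right_cancel₀ hI
        rw [hk]; push_cast; ring
      have h3 : (2 * Real.pi * m / N : ℝ) = 2 * Real.pi * k := by exact_mod_cast h2
      have h4 : (m : ℝ) = N * k := by
        field_simp at h3
        exact h3
      exact_mod_cast h4
    have hzN : z ^ N = 1 := by
      rw [hz, ← Complex.exp_nat_mul, Complex.exp_eq_one_iff]
      refine ⟨m, ?_⟩
      push_cast
      field_simp
    rw [geom_sum_eq hz1, hzN]; simp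

lemma sum_cos (N : ℕ) (hN : 0 < N) (m : ℤ) :
    ∑ b ∈ range N, Real.cos (2 * Real.pi * m / N * b) = if (N : ℤ) ∣ m then (N : ℝ) else 0 := by
  have h := congrArg Complex.re (sum_exp N hN m)
  rw [Complex.re_sum] at h
  simp only [Complex.exp_ofReal_mul_I_re] at h
  rw [h]
  split_ifs <;> simp

lemma sum_sin (N : ℕ) (hN : 0 < N) (m : ℤ) :
    ∑ b ∈ range N, Real.sin (2 * Real.pi * m / N * b) = 0 := by
  have h := congrArg Complex.im (sum_exp N hN m)
  rw [Complex.im_sum] at h
  simp only [Complex.exp_ofReal_mul_I_im] at h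
  rw [h]
  split_ifs <;> simp

/-- Orthogonality of the Hartley matrix. -/
lemma hartley (N : ℕ) (hN : 0 < N) (a a' : Fin N) :
    ∑ b ∈ range N, cas (2 * Real.pi * (a : ℕ) / N * b) * cas (2 * Real.pi * (a' : ℕ) / N * b) =
      if a = a' then (N : ℝ) else 0 := by
  have h1 : ∀ b ∈ range N, cas (2 * Real.pi * (a : ℕ) / N * b) * cas (2 * Real.pi * (a' : ℕ) / N * b) =
      Real.cos (2 * Real.pi * (((a : ℕ) : ℤ) - ((a' : ℕ) : ℤ) : ℤ) / N * b) +
        Real.sin (2 * Real.pi * (((a : ℕ) : ℤ) + ((a' : ℕ) : ℤ) : ℤ) / N * b) := by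
    intro b _
    rw [cas_mul_cas]
    congr 2 <;> · push_cast; ring
  rw [sum_congr rfl h1, sum_add_distrib, sum_cos N hN, sum_sin N hN, add_zero]
  congr 1
  apply propext
  constructor
  · rintro ⟨k, hk⟩
    have ha := a.2
    have ha' := a'.2
    have hk0 : k = 0 := by
      by_contra hne
      rcases lt_or_gt_of_ne hne with h | h
      · have : (N : ℤ) * k ≤ -N := by nlinarith
        omega
      · have : (N : ℤ) * k ≥ N := by nlinarith
        omega
    rw [hk0] at hk
    apply Fin.ext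
    omega
  · rintro rfl; simp

end Pool.Agent.Helper38.SX
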