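import Pool.Agent.Helper38.SX.Hartley

/-! Volume estimates for the difference body, and the greedy packing step. -/

namespace Pool.Agent.Helper38.SX

open MeasureTheory Set Finset
open scoped ENNReal

/-- The vertices `u_a ∈ ℝ^n`, `a = 0, …, n`. -/
noncomputable def u (n : ℕ) (a : Fin (n + 1)) (i : Fin n) : ℝ :=
  cas (2 * Real.pi * ((a : ℕ) : ℝ) / ((n + 1 : ℕ) : ℝ) * (((i : ℕ) + 1 : ℕ) : ℝ)) / Real.sqrt (2 * (n + 1))

lemma u_inner (n : ℕ) (a b : Fin (n + 1)) :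
    ∑ i, u n a i * u n b i = if a = b then (n : ℝ) / (2 * (n + 1)) else - 1 / (2 * (n + 1)) := by
  have h := hartley (n + 1) (Nat.succ_pos n) a b
  rw [Finset.sum_range_succ'] at h
  have h0 : cas (2 * Real.pi * ((a : ℕ) : ℝ) / ((n + 1 : ℕ) : ℝ) * ((0 : ℕ) : ℝ)) *
      cas (2 * Real.pi * ((b : ℕ) : ℝ) / ((n + 1 : ℕ) : ℝ) * ((0 : ℕ) : ℝ)) = 1 := by
    simp [cas]
  rw [h0, Finset.sum_range] at h
  have hs : Real.sqrt (2 * (n + 1)) * Real.sqrt (2 * (n + 1)) = 2 * (n + 1) :=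
    Real.mul_self_sqrt (by positivity)
  have hs0 : Real.sqrt (2 * ((n : ℝ) + 1)) ≠ 0 := by positivity
  have h1 : ∑ i, u n a i * u n b i = (∑ i : Fin n,
      cas (2 * Real.pi * ((a : ℕ) : ℝ) / ((n + 1 : ℕ) : ℝ) * (((i : ℕ) + 1 : ℕ) : ℝ)) *
      cas (2 * Real.pi * ((b : ℕ) : ℝ) / ((n + 1 : ℕ) : ℝ) * (((i : ℕ) + 1 : ℕ) : ℝ))) / (2 * (n + 1)) := by
    rw [Finset.sum_div]
    refine Finset.sum_congr rfl fun i _ => ?_
    unfold u
    rw [div_mul_div_comm, hs]
  rw [h1, eq_sub_of_add_eq h]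
  split_ifs <;> · push_cast; ring

lemma abs_u_le (n : ℕ) (a : Fin (n + 1)) (i : Fin n) : |u n a i| ≤ 1 / Real.sqrt (n + 1) := by
  unfold u
  rw [abs_div, abs_of_nonneg (Real.sqrt_nonneg (2 * ((n : ℝ) + 1)))]
  rw [Real.sqrt_mul (by norm_num), div_le_div_iff₀ (by positivity) (by positivity)]
  have h := abs_cas_le (2 * Real.pi * ((a : ℕ) : ℝ) / ((n + 1 : ℕ) : ℝ) * (((i : ℕ) + 1 : ℕ) : ℝ))
  nlinarith [Real.sqrt_nonneg ((n : ℝ) + 1)]

/-- The matrix of edge vectors. -/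
noncomputable def A (n : ℕ) : Matrix (Fin n) (Fin n) ℝ := fun i j => u n j.succ i - u n 0 i

lemma gram (n : ℕ) : (A n).transpose * A n =
    (1 / 2 : ℝ) • (1 + Matrix.replicateCol Unit (fun _ => (1 : ℝ)) * Matrix.replicateRow Unit (fun _ => (1 : ℝ))) := by
  ext j k
  rw [Matrix.mul_apply]
  simp only [Matrix.transpose_apply, A, Matrix.smul_apply, Matrix.add_apply, smul_eq_mul]
  have h1 : ∑ i, (u n j.succ i - u n 0 i) * (u n k.succ i - u n 0 i) =
      ∑ i, u n j.succ i * u n k.succ i - ∑ i, u n j.succ i * u n 0 i - ∑ i, u n 0 i * u n k.succ i +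
        ∑ i, u n 0 i * u n 0 i := by
    rw [← Finset.sum_sub_distrib, ← Finset.sum_sub_distrib, ← Finset.sum_add_distrib]
    exact Finset.sum_congr rfl fun i _ => by ring
  rw [h1, u_inner, u_inner, u_inner, u_inner]
  have hj : j.succ ≠ 0 := Fin.succ_ne_zero j
  have hk : (0 : Fin (n + 1)) ≠ k.succ := (Fin.succ_ne_zero k).symm
  have hn : (n : ℝ) + 1 ≠ 0 := by positivity
  simp only [hj, hk, if_false, if_true, Matrix.one_apply, Matrix.mul_apply, Matrix.replicateCol_apply,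
    Matrix.replicateRow_apply, Fin.succ_inj]
  split_ifs <;> simp <;> field_simp <;> ring

lemma det_sq (n : ℕ) : (A n).det ^ 2 = (1 / 2 : ℝ) ^ n * (n + 1) := by
  have h := congrArg Matrix.det (gram n)
  rw [Matrix.det_mul, Matrix.det_transpose, Matrix.det_smul, Matrix.det_one_add_replicateCol_mul_replicateRow] at h
  simp [dotProduct] at h
  rw [sq, h, one_div, inv_pow]; ring

/-- ℓ¹ ball of radius 2. -/
def B (n : ℕ) : Set (Fin n → ℝ) := {c | ∑ i, |c i| ≤ 2}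

lemma volume_B (n : ℕ) (hn : 0 < n) : volume (B n) = ENNReal.ofReal (4 ^ n / n.factorial) := by
  have : Nonempty (Fin n) := ⟨⟨0, hn⟩⟩
  have h := MeasureTheory.volume_sum_rpow_le (ι := Fin n) (p := 1) le_rfl 2
  have h2 : {x : Fin n → ℝ | (∑ i, |x i| ^ (1 : ℝ)) ^ (1 / 1 : ℝ) ≤ 2} = B n := by
    ext x; simp [B]
  rw [h2] at h
  rw [h]
  have hG : Real.Gamma (1 / 1 + 1) = 1 := by norm_num [Real.Gamma_two]
  rw [hG]
  simp only [Fintype.card_fin, mul_one, div_one]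
  rw [Real.Gamma_nat_eq_factorial, ← ENNReal.ofReal_pow (by norm_num), ← ENNReal.ofReal_mul (by positivity)]
  congr 1
  rw [show (4 : ℝ) = 2 * 2 by norm_num, mul_pow]; ring

/-- The (superset of the) difference body. -/
def D (n : ℕ) : Set (Fin n → ℝ) := (Matrix.toLin' (A n)) '' B n

lemma volume_D (n : ℕ) (hn : 0 < n) :
    volume (D n) = ENNReal.ofReal (|(A n).det| * (4 ^ n / n.factorial)) := by
  unfold D
  rw [MeasureTheory.Measure.addHaar_image_linearMap, volume_B n hn, LinearMap.det_toLin',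
    ← ENNReal.ofReal_mul (abs_nonneg _)]

/-- greedy step -/
lemma greedy (n : ℕ) (Q : Set (Fin n → ℝ)) (k : ℕ) (x : Fin k → (Fin n → ℝ))
    (h : (k : ℝ≥0∞) * volume (D n) < volume Q) :
    ∃ y ∈ Q, ∀ i, y - x i ∉ D n := by
  by_contra hcon
  push Not at hcon
  have hsub : Q ⊆ ⋃ i, (fun z => x i + z) '' D n := by
    intro y hy
    obtain ⟨i, hi⟩ := hcon y hy
    exact mem_iUnion.2 ⟨i, y - x i, hi, by simp⟩
  have : volume Q ≤ (k : ℝ≥0∞) * volume (D n) := by
    calc volume Q ≤ volume (⋃ i, (fun z => x i + z) '' D n) := measure_mono hsub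
      _ ≤ ∑ i, volume ((fun z => x i + z) '' D n) := measure_iUnion_fintype_le _ _
      _ = ∑ i : Fin k, volume (D n) := by
          refine Finset.sum_congr rfl fun i _ => ?_
          rw [Set.image_add_left, measure_preimage_add]
      _ = (k : ℝ≥0∞) * volume (D n) := by simp
  exact absurd h (not_lt.2 this)

end Pool.Agent.Helper38.SX
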